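import Pool.Agent.H42.WG.Conn

set_option autoImplicit false

namespace Pool.WG

theorem Frag.symm {V : Type} {G : SimpleGraph V} {C T : Set V} (h : Frag G C T) :
    Frag G (C ∪ T)ᶜ T := by
  obtain ⟨h1, h2, h3, h4⟩ := h
  refine ⟨h3, ?_, ?_, ?_⟩
  · rw [Set.disjoint_left]
    intro a ha ha'
    exact ha (Or.inr ha')
  · obtain ⟨c, hc⟩ := h1
    refine ⟨c, ?_⟩
    rintro (h | h)
    · exact h (Or.inl hc)
    · exact Set.disjoint_left.1 h2 hc h
  · intro a ha b hab
    by_contra hb
    have hb1 : b ∈ C ∪ T := by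
      by_contra h; exact hb (Or.inl h)
    have hb2 : b ∉ T := fun h => hb (Or.inr h)
    have hb3 : b ∈ C := by
      rcases hb1 with h | h
      · exact h
      · exact absurd h hb2
    exact ha (h4 b hb3 a hab.symm)

/-- shrinking the separator -/
theorem Frag.shrink {V : Type} {G : SimpleGraph V} {C T T' : Set V} (h : Frag G C T)
    (hT : T' ⊆ T) (hn : ∀ a ∈ C, ∀ b ∈ T, b ∉ T' → ¬ G.Adj a b) : Frag G C T' := by
  obtain ⟨h1, h2, h3, h4⟩ := h
  refine ⟨h1, h2.mono_right hT, ?_, ?_⟩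
  · obtain ⟨c, hc⟩ := h3
    exact ⟨c, fun h => hc (h.elim Or.inl (fun h => Or.inr (hT h)))⟩
  · intro a ha b hab
    rcases h4 a ha b hab with h | h
    · exact Or.inl h
    · right
      by_contra hb
      exact hn a ha b h hb hab

theorem ncard_pair_le {V : Type} (a b : V) : ({a, b} : Set V).ncard ≤ 2 := by
  have := Set.ncard_insert_le a ({b} : Set V)
  rw [Set.ncard_singleton] at this
  exact this

theorem tho : ThoSt := by
  classical
  intro V _ G hV h2
  by_contra hcon
  push Not at hcon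
  have hne : ∃ n : ℕ, ∃ (x y z : V) (C : Set V), G.Adj x y ∧ Frag G C {x, y, z} ∧ C.ncard = n := by
    have hed : ∃ x y, G.Adj x y := by
      by_contra hno
      push Not at hno
      have h1 : 1 < Nat.card V := by omega
      obtain ⟨a, b, hab⟩ := (Finite.one_lt_card_iff_nontrivial.1 h1).exists_pair_ne
      refine h2 ∅ {a} (by simp) ⟨⟨a, rfl⟩, by simp, ⟨b, ?_⟩, ?_⟩
      · simp [Ne.symm hab]
      · intro x _ y hxy
        exact absurd hxy (hno x y)
    obtain ⟨x, y, hxy⟩ := hed
    obtain ⟨z, C, hC⟩ := hcon x y hxy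
    exact ⟨C.ncard, x, y, z, C, hxy, hC, rfl⟩
  obtain ⟨x, y, z, C, hxy, hC, hCn⟩ := Nat.find_spec hne
  have hmin : ∀ (x' y' z' : V) (C' : Set V), G.Adj x' y' → Frag G C' {x', y', z'} →
      C.ncard ≤ C'.ncard := by
    intro x' y' z' C' h1 h2
    rw [hCn]
    exact Nat.find_min' hne ⟨x', y', z', C', h1, h2, rfl⟩
  -- a neighbour of z in C
  have hz : ∃ v ∈ C, G.Adj z v := by
    by_contra hno
    push Not at hno
    refine h2 {x, y} C (ncard_pair_le x y) (hC.shrink ?_ ?_)
    · intro a ha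
      rcases ha with ha | ha
      · exact Or.inl ha
      · exact Or.inr (Or.inl ha)
    · intro a ha b hb hb' hab
      rcases hb with hb | hb | hb
      · exact hb' (Or.inl hb)
      · exact hb' (Or.inr hb)
      · rw [Set.mem_singleton_iff] at hb
        subst hb
        exact hno a ha hab.symm
  obtain ⟨v, hvC, hzv⟩ := hz
  obtain ⟨w, D', hD'⟩ := hcon z v hzv
  have hD : ∃ D : Set V, Frag G D {z, v, w} ∧ x ∉ D ∧ y ∉ D := by
    by_cases hx : x ∈ D'
    · refine ⟨_, hD'.symm, ?_, ?_⟩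
      · exact fun h => h (Or.inl hx)
      · exact fun h => h (hD'.2.2.2 x hx y hxy)
    · by_cases hy : y ∈ D'
      · refine ⟨_, hD'.symm, ?_, ?_⟩
        · exact fun h => h (hD'.2.2.2 y hy x hxy.symm)
        · exact fun h => h (Or.inl hy)
      · exact ⟨D', hD', hx, hy⟩
  obtain ⟨D, hDF, hxD, hyD⟩ := hD
  have hDT : ∀ a ∈ D, a ≠ z ∧ a ≠ v ∧ a ≠ w := by
    intro a ha
    have := Set.disjoint_left.1 hDF.2.1 ha
    simp only [Set.mem_insert_iff, Set.mem_singleton_iff, not_or] at this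
    exact this
  -- a neighbour of v in D
  have hv : ∃ u ∈ D, G.Adj u v := by
    by_contra hno
    push Not at hno
    refine h2 {z, w} D (ncard_pair_le z w) (hDF.shrink ?_ ?_)
    · intro a ha
      rcases ha with ha | ha
      · exact Or.inl ha
      · exact Or.inr (Or.inr ha)
    · intro a ha b hb hb' hab
      rcases hb with hb | hb | hb
      · exact hb' (Or.inl hb)
      · subst hb
        exact hno a ha hab
      · exact hb' (Or.inr hb)
  obtain ⟨u, huD, huv⟩ := hv
  have key : ∀ a ∈ C, ∀ b ∈ D, G.Adj a b → b ∈ C := by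
    intro a ha b hb hab
    rcases hC.2.2.2 a ha b hab with h | h | h | h
    · exact h
    · exact absurd (h ▸ hb) hxD
    · exact absurd (h ▸ hb) hyD
    · exact absurd h (hDT b hb).1
  have hF : Frag G (D ∩ C) {z, v, w} := by
    refine ⟨⟨u, huD, key v hvC u huD huv.symm⟩, hDF.2.1.mono_left Set.inter_subset_left, ?_, ?_⟩
    · obtain ⟨c, hc⟩ := hDF.2.2.1
      exact ⟨c, fun h => hc (h.elim (fun h => Or.inl h.1) Or.inr)⟩
    · intro a ha b hab
      rcases hDF.2.2.2 a ha.1 b hab with h | h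
      · exact Or.inl ⟨h, key a ha.2 b h hab⟩
      · exact Or.inr h
  have h5 := hmin z v w (D ∩ C) hzv hF
  have h6 : (D ∩ C).ncard < C.ncard := by
    refine Set.ncard_lt_ncard ⟨Set.inter_subset_right, fun h => ?_⟩ (Set.toFinite _)
    exact (hDT v (h hvC).1).2.1 rfl
  omega

end Pool.WG
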