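import Pool.Agent.H42.WG.Arc
import Pool.Agent.H42.WG.Tho

set_option autoImplicit false

namespace Pool.WG

theorem sml : SmlSt := by
  intro P hP V _ G hV
  have := Fintype.ofFinite V
  have hc : Fintype.card V ≤ Fintype.card (Fin 4) := by
    rw [← Nat.card_eq_fintype_card, Fintype.card_fin]; exact hV
  obtain ⟨f⟩ := Function.Embedding.nonempty_of_card_le hc
  exact (hP.map V (Fin 4) f G).1 (hP.mono (Fin 4) (G.map f) ⊤ le_top hP.k4)

theorem iso : IsoSt := by
  intro P hP V _ ih G y hy hF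
  have hcard : Nat.card {a : V // a ≠ y} < Nat.card V := by
    have := Fintype.ofFinite V
    classical
    rw [Nat.card_eq_fintype_card, Nat.card_eq_fintype_card]
    exact Fintype.card_subtype_lt (x := y) (by simp)
  have hF' : Fr (G.comap (Function.Embedding.subtype (fun a : V => a ≠ y))) := by
    refine tfr _ V _ G (fun a => {a.1}) ?_ ?_ ?_ hF
    · intro a _ _; exact conn_single G a.1
    · intro a b _ _ _ _ hab
      exact Set.disjoint_singleton.2 (fun h => hab (Subtype.ext h))
    · intro a b hab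
      exact ⟨a.1, rfl, b.1, rfl, hab⟩
  have h1 := ih _ hcard _ hF'
  have h2 := (hP.map _ V (Function.Embedding.subtype (fun a : V => a ≠ y)) _).2 h1
  have h3 : (G.comap (Function.Embedding.subtype (fun a : V => a ≠ y))).map
      (Function.Embedding.subtype (fun a : V => a ≠ y)) = G := by
    ext a b
    simp only [SimpleGraph.map_adj, SimpleGraph.comap_adj]
    constructor
    · rintro ⟨u, v, h, rfl, rfl⟩; exact h
    · intro h
      have ha : a ≠ y := by rintro rfl; exact hy _ h
      have hb : b ≠ y := by rintro rfl; exact hy _ h.symm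
      exact ⟨⟨a, ha⟩, ⟨b, hb⟩, h, rfl, rfl⟩
  rwa [h3] at h2

/-- restriction to a set, on the same vertex type -/
def res {V : Type} (G : SimpleGraph V) (A : Set V) : SimpleGraph V where
  Adj a b := G.Adj a b ∧ a ∈ A ∧ b ∈ A
  symm := ⟨fun _ _ h => ⟨h.1.symm, h.2.2, h.2.1⟩⟩
  loopless := ⟨fun _ h => h.1.ne rfl⟩

theorem se1 : Se1St := by
  intro P hP V _ hiso G C T hT hC hF
  obtain ⟨h1, h2, h3, h4⟩ := hC
  obtain ⟨c, hc⟩ := h1
  obtain ⟨d, hd⟩ := h3
  have hu : ∃ u, T ⊆ {u} := by
    rcases Nat.lt_or_ge T.ncard 1 with h | h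
    · have : T = ∅ := (Set.ncard_eq_zero (Set.toFinite _)).1 (by omega)
      exact ⟨c, by simp [this]⟩
    · obtain ⟨u, hu⟩ := Set.ncard_eq_one.1 (le_antisymm hT h)
      exact ⟨u, hu.le⟩
  obtain ⟨u, hu⟩ := hu
  have e : G = res G (C ∪ T) ⊔ res G Cᶜ := by
    ext a b
    constructor
    · intro hab
      by_cases ha : a ∈ C
      · left
        exact ⟨hab, Or.inl ha, h4 a ha b hab⟩
      · by_cases hb : b ∈ C
        · left
          exact ⟨hab, h4 b hb a hab.symm, Or.inl hb⟩
        · right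
          exact ⟨hab, ha, hb⟩
    · rintro (h | h)
      · exact h.1
      · exact h.1
  rw [e]
  refine hP.gl1 V _ _ u ?_ (hiso _ d ?_ (mono_fr ?_ hF)) (hiso _ c ?_ (mono_fr ?_ hF))
  · intro w a b h h'
    have hw : w ∈ T := by
      rcases h.2.1 with h'' | h''
      · exact absurd h'' h'.2.1
      · exact h''
    exact hu hw
  · intro a h
    exact hd h.2.1
  · intro a b h
    exact h.1
  · intro a h
    exact h.2.1 hc
  · intro a b h
    exact h.1

/-- the reachable part is connected -/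
theorem reach_conn {V : Type} (G : SimpleGraph V) (S : Set V) (v : V) (hv : v ∈ S) :
    (G.induce {b | ∃ h : b ∈ S, (G.induce S).Reachable ⟨v, hv⟩ ⟨b, h⟩}).Connected := by
  have key : ∀ b : S, (h : (G.induce S).Reachable ⟨v, hv⟩ b) →
      (G.induce {b | ∃ h : b ∈ S, (G.induce S).Reachable ⟨v, hv⟩ ⟨b, h⟩}).Reachable
        ⟨v, hv, SimpleGraph.Reachable.refl _⟩ ⟨b.1, b.2, h⟩ := by
    intro b h
    have h' := h
    rw [SimpleGraph.reachable_iff_reflTransGen] at h'
    induction h' with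
    | refl => exact SimpleGraph.Reachable.refl _
    | @tail b c hb hbc ih =>
      have hb' : (G.induce S).Reachable ⟨v, hv⟩ b := by
        rw [SimpleGraph.reachable_iff_reflTransGen]; exact hb
      refine (ih hb').trans (SimpleGraph.Adj.reachable ?_)
      exact hbc
  have : Nonempty ↑{b | ∃ h : b ∈ S, (G.induce S).Reachable ⟨v, hv⟩ ⟨b, h⟩} :=
    ⟨⟨v, hv, SimpleGraph.Reachable.refl _⟩⟩
  refine SimpleGraph.Connected.mk ?_
  rintro ⟨a, ha, ha'⟩ ⟨b, hb, hb'⟩
  exact (key ⟨a, ha⟩ ha').symm.trans (key ⟨b, hb⟩ hb')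

theorem pc : PcSt := by
  classical
  intro V G A B u v huv hAB hI hE hBA hAB' hno G' hG' hF
  have huA : u ∈ A := by
    have : u ∈ A ∩ B := by rw [hI]; simp
    exact this.1
  have hvA : v ∈ A := by
    have : v ∈ A ∩ B := by rw [hI]; simp
    exact this.1
  have hvB : v ∈ B := by
    have : v ∈ A ∩ B := by rw [hI]; simp
    exact this.2
  have hIu : ∀ a, a ∈ A → a ∈ B → a = u ∨ a = v := by
    intro a ha hb
    have : a ∈ A ∩ B := ⟨ha, hb⟩
    rw [hI] at this
    simpa using this
  have hvS : v ∈ B \ {u} := ⟨hvB, fun h => huv h.symm⟩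
  obtain ⟨R, hR⟩ : ∃ R : Set V, R = {b | ∃ h : b ∈ B \ {u}, (G.induce (B \ {u})).Reachable ⟨v, hvS⟩ ⟨b, h⟩} := ⟨_, rfl⟩
  have hRc : (G.induce R).Connected := by rw [hR]; exact reach_conn G _ v hvS
  have hRB : ∀ a ∈ R, a ∈ B ∧ a ≠ u := by
    intro a ha
    rw [hR] at ha
    obtain ⟨h, _⟩ := ha
    exact ⟨h.1, h.2⟩
  have hvR : v ∈ R := by rw [hR]; exact ⟨hvS, SimpleGraph.Reachable.refl _⟩
  have hRs : ∀ a ∈ R, ∀ b ∈ B, b ≠ u → G.Adj a b → b ∈ R := by
    intro a ha b hb hbu hab
    rw [hR] at ha ⊢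
    obtain ⟨h, h'⟩ := ha
    refine ⟨⟨hb, hbu⟩, h'.trans (SimpleGraph.Adj.reachable ?_)⟩
    exact hab
  have hEB : ∀ a b, G.Adj a b → a ∉ A → b ∈ B := by
    intro a b hab ha
    rcases hE a b hab with h | h
    · exact absurd h.1 ha
    · exact h.2
  have hu : ∃ r ∈ R, G.Adj u r := by
    by_contra hcon
    push Not at hcon
    by_cases hR1 : ∃ r ∈ R, r ≠ v
    · obtain ⟨r, hr, hrv⟩ := hR1
      refine hno {v} (R \ {v}) (by simp) ⟨⟨r, hr, hrv⟩, Set.disjoint_sdiff_left, ⟨u, ?_⟩, ?_⟩
      · rintro (h | h)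
        · exact (hRB u h.1).2 rfl
        · exact huv h
      · intro a ha b hab
        have haA : a ∉ A := by
          intro h
          rcases hIu a h (hRB a ha.1).1 with h | h
          · exact (hRB a ha.1).2 h
          · exact ha.2 h
        have hbB : b ∈ B := hEB a b hab haA
        have hbu : b ≠ u := by
          rintro rfl
          exact hcon a ha.1 hab.symm
        by_cases hbv : b = v
        · right; exact hbv
        · left
          exact ⟨hRs a ha.1 b hbB hbu hab, hbv⟩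
    · push Not at hR1
      refine hno {u} (B \ A) (by simp) ⟨hBA, ?_, ⟨v, ?_⟩, ?_⟩
      · rw [Set.disjoint_singleton_right]
        exact fun h => h.2 huA
      · rintro (h | h)
        · exact h.2 hvA
        · exact huv h.symm
      · intro a ha b hab
        have hbB : b ∈ B := hEB a b hab ha.2
        by_cases hbA : b ∈ A
        · rcases hIu b hbA hbB with h | h
          · right; exact h
          · exfalso
            subst h
            have h1 : a ≠ u := by rintro rfl; exact ha.2 huA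
            have h2 := hRs b hvR a ha.1 h1 hab.symm
            have h3 := hR1 a h2
            subst h3
            exact ha.2 hvA
        · left; exact ⟨hbB, hbA⟩
  obtain ⟨r, hrR, hur⟩ := hu
  have hA' : ∀ a b, G'.Adj a b → a ∈ A := by
    intro a b hab
    rcases hG' a b hab with h | ⟨h, _⟩ | ⟨h, _⟩
    · exact h.2.1
    · rw [h]; exact huA
    · rw [h]; exact hvA
  refine tfr V V G' G (fun a => if a = v then R else {a}) ?_ ?_ ?_ hF
  · intro a b hab
    by_cases h : a = v
    · rw [if_pos h]; exact hRc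
    · rw [if_neg h]; exact conn_single G a
  · intro a b a' b' ha hb hab
    have haA := hA' a a' ha
    have hbA := hA' b b' hb
    have key : ∀ b, b ∈ A → b ≠ v → b ∉ R := by
      intro b hb hbv h
      rcases hIu b hb (hRB b h).1 with h' | h'
      · exact (hRB b h).2 h'
      · exact hbv h'
    by_cases h1 : a = v
    · by_cases h2 : b = v
      · exact absurd (h1.trans h2.symm) hab
      · rw [if_pos h1, if_neg h2, Set.disjoint_singleton_right]
        exact key b hbA h2
    · by_cases h2 : b = v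
      · rw [if_neg h1, if_pos h2, Set.disjoint_singleton_left]
        exact key a haA h1
      · rw [if_neg h1, if_neg h2]
        exact Set.disjoint_singleton.2 hab
  · intro a b hab
    have hmem : ∀ a, a ∈ (if a = v then R else {a}) := by
      intro a
      by_cases h : a = v
      · rw [if_pos h, h]; exact hvR
      · rw [if_neg h]; rfl
    rcases hG' a b hab with h | ⟨h, h'⟩ | ⟨h, h'⟩
    · exact ⟨a, hmem a, b, hmem b, h.1⟩
    · refine ⟨a, hmem a, r, ?_, h ▸ hur⟩
      rw [if_pos h']; exact hrR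
    · refine ⟨r, ?_, b, hmem b, h' ▸ hur.symm⟩
      rw [if_pos h]; exact hrR

/-- restriction to a set plus an edge -/
def rese {V : Type} (G : SimpleGraph V) (A : Set V) (u v : V) : SimpleGraph V where
  Adj a b := (G.Adj a b ∧ a ∈ A ∧ b ∈ A) ∨ (a ≠ b ∧ ((a = u ∧ b = v) ∨ (a = v ∧ b = u)))
  symm := ⟨fun _ _ h => h.elim (fun h => Or.inl ⟨h.1.symm, h.2.2, h.2.1⟩)
    (fun h => Or.inr ⟨h.1.symm, h.2.elim (fun h => Or.inr ⟨h.2, h.1⟩) (fun h => Or.inl ⟨h.2, h.1⟩)⟩)⟩
  loopless := ⟨fun _ h => h.elim (fun h => h.1.ne rfl) (fun h => h.1 rfl)⟩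

theorem se2 : Se2St := by
  intro P hP V _ hiso G C T hT hC hno hF
  obtain ⟨h1, h2, h3, h4⟩ := hC
  obtain ⟨c, hc⟩ := h1
  obtain ⟨d, hd⟩ := h3
  obtain ⟨u, v, huv, rfl⟩ := Set.ncard_eq_two.1 hT
  have huC : u ∉ C := fun h => Set.disjoint_left.1 h2 h (by simp)
  have hvC : v ∉ C := fun h => Set.disjoint_left.1 h2 h (by simp)
  have e : G ≤ rese G (C ∪ {u, v}) u v ⊔ rese G Cᶜ u v := by
    intro a b hab
    by_cases ha : a ∈ C
    · left
      exact Or.inl ⟨hab, Or.inl ha, h4 a ha b hab⟩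
    · by_cases hb : b ∈ C
      · left
        exact Or.inl ⟨hab, h4 b hb a hab.symm, Or.inl hb⟩
      · right
        exact Or.inl ⟨hab, ha, hb⟩
  have hsub : ∀ a b, G.Adj a b → (a ∈ C ∪ {u, v} ∧ b ∈ C ∪ {u, v}) ∨ (a ∈ Cᶜ ∧ b ∈ Cᶜ) := by
    intro a b hab
    by_cases ha : a ∈ C
    · left
      exact ⟨Or.inl ha, h4 a ha b hab⟩
    · by_cases hb : b ∈ C
      · left
        exact ⟨h4 b hb a hab.symm, Or.inl hb⟩
      · right
        exact ⟨ha, hb⟩
  refine hP.mono V _ _ e (hP.gl2 V _ _ u v ?_ ?_ ?_ (hiso _ d ?_ ?_) (hiso _ c ?_ ?_))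
  · exact Or.inr ⟨huv, Or.inl ⟨rfl, rfl⟩⟩
  · exact Or.inr ⟨huv, Or.inl ⟨rfl, rfl⟩⟩
  · intro w a b h h'
    rcases h with h | ⟨_, h | h⟩
    · rcases h' with h' | ⟨_, h' | h'⟩
      · rcases h.2.1 with h'' | h''
        · exact absurd h'' h'.2.1
        · simpa using h''
      · exact Or.inl h'.1
      · exact Or.inr h'.1
    · exact Or.inl h.1
    · exact Or.inr h.1
  · rintro a (h | ⟨_, h | h⟩)
    · exact hd h.2.1
    · exact hd (by rw [h.1]; simp)
    · exact hd (by rw [h.1]; simp)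
  · refine pc V G (C ∪ {u, v}) Cᶜ u v huv ?_ ?_ hsub ?_ ?_ hno _ ?_ hF
    · ext a
      simp only [Set.mem_union, Set.mem_compl_iff, Set.mem_univ, iff_true]
      tauto
    · ext a
      simp only [Set.mem_union, Set.mem_compl_iff, Set.mem_inter_iff, Set.mem_insert_iff,
        Set.mem_singleton_iff]
      constructor
      · rintro ⟨h | h, h'⟩
        · exact absurd h h'
        · exact h
      · rintro (rfl | rfl)
        · exact ⟨Or.inr (Or.inl rfl), huC⟩
        · exact ⟨Or.inr (Or.inr rfl), hvC⟩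
    · exact ⟨d, fun h => hd (Or.inl h), hd⟩
    · exact ⟨c, Or.inl hc, fun h => h hc⟩
    · rintro a b (h | ⟨_, h⟩)
      · exact Or.inl h
      · exact Or.inr h
  · rintro a (h | ⟨_, h | h⟩)
    · exact h.2.1 hc
    · exact huC (h.1 ▸ hc)
    · exact hvC (h.1 ▸ hc)
  · refine pc V G Cᶜ (C ∪ {u, v}) u v huv ?_ ?_ ?_ ?_ ?_ hno _ ?_ hF
    · ext a
      simp only [Set.mem_union, Set.mem_compl_iff, Set.mem_univ, iff_true]
      tauto
    · ext a
      simp only [Set.mem_union, Set.mem_compl_iff, Set.mem_inter_iff, Set.mem_insert_iff,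
        Set.mem_singleton_iff]
      constructor
      · rintro ⟨h', h | h⟩
        · exact absurd h h'
        · exact h
      · rintro (rfl | rfl)
        · exact ⟨huC, Or.inr (Or.inl rfl)⟩
        · exact ⟨hvC, Or.inr (Or.inr rfl)⟩
    · intro a b hab
      exact (hsub a b hab).symm
    · exact ⟨c, Or.inl hc, fun h => h hc⟩
    · exact ⟨d, fun h => hd (Or.inl h), hd⟩
    · rintro a b (h | ⟨_, h⟩)
      · exact Or.inl h
      · exact Or.inr h

theorem mns : MnsSt := by
  intro P hP V _ hiso hV G hno hF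
  obtain ⟨x, y, hxy, hxyz⟩ := tho V G hV hno
  have hPc : P V (ctr G x y) := by
    refine hiso _ y ?_ (ctrfr V G x y hxy hF)
    intro a h
    exact h.2.1 rfl
  have hC3 : C3 G := fun S hS => fc V G S (fun C => hno S C hS)
  obtain ⟨m, c, hm3, hper, hinj, hcyc, hout, hx, hy, hsplit⟩ :=
    hP.lnk V G x y hxy hV hC3 (fun z => fc V G _ (hxyz z)) hPc
  rcases tri m (fun j => G.Adj x (c j)) (fun j => G.Adj y (c j)) (by omega)
    (fun j => by simp only [hper]) (fun j => by simp only [hper]) with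
    ⟨i, j, k, hij, hjk, hki, h1, h2, h3⟩ | ⟨i, j, k, l, hij, hjk, hkl, hli, h1, h2, h3, h4⟩ |
    ⟨s, k, hk, h1, h2⟩
  · exact absurd (k5m V G x y m c hxy hper hinj hcyc hout i j k hij hjk hki h1 h2 h3) hF.1
  · exact absurd (k33m V G x y m c hxy hper hinj hcyc hout i j k l hij hjk hkl hli h1 h2 h3 h4)
      hF.2
  · have hp : Function.Periodic c m := hper
    have hcm : ∀ i j, i ≡ j [MOD m] → c i = c j := by
      intro i j h
      rw [← hp.map_mod_nat i, ← hp.map_mod_nat j, show i % m = j % m from h]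
    refine hsplit s k hk ?_ ?_
    · intro w hw hwy
      obtain ⟨j, rfl⟩ := hx w hw hwy
      obtain ⟨i, hi, hji⟩ := h1 j hw
      exact ⟨i, hi, hcm _ _ hji⟩
    · intro w hw hwx
      obtain ⟨j, rfl⟩ := hy w hw hwx
      obtain ⟨i, hi, hi', hji⟩ := h2 j hw
      exact ⟨i, hi, hi', hcm _ _ hji⟩

/-- **the graph side of the theorem of Wagner** -/
theorem wagnerAbs : WagnerAbs := by
  intro P hP
  have key : ∀ n : ℕ, ∀ (V : Type) [Finite V], Nat.card V = n → ∀ G : SimpleGraph V, Fr G → P V G := by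
    intro n
    induction n using Nat.strong_induction_on with
    | _ n ih =>
      intro V _ hVn
      have hiso : ∀ (G : SimpleGraph V) (y : V), (∀ a, ¬ G.Adj y a) → Fr G → P V G :=
        iso P hP V (fun W _ hW => ih (Nat.card W) (hVn ▸ hW) W rfl)
      intro G hF
      by_cases h4 : Nat.card V ≤ 4
      · exact sml P hP V G h4
      by_cases h1 : ∀ T C : Set V, T.ncard ≤ 1 → ¬ Frag G C T
      · by_cases h2 : ∀ T C : Set V, T.ncard = 2 → ¬ Frag G C T
        · refine mns P hP V hiso (by omega) G ?_ hF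
          intro T C hT
          rcases Nat.lt_or_ge T.ncard 2 with h | h
          · exact h1 T C (by omega)
          · exact h2 T C (by omega)
        · push Not at h2
          obtain ⟨T, C, hT, hC⟩ := h2
          exact se2 P hP V hiso G C T hT hC h1 hF
      · push Not at h1
        obtain ⟨T, C, hT, hC⟩ := h1
        exact se1 P hP V hiso G C T hT hC hF
  intro V _ G hF
  exact key (Nat.card V) V rfl G hF

end Pool.WG
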