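import Mathlib

/-!
Project WG, graph side of the combinatorial Wagner theorem: if a class `P` of finite graphs has the
closure properties `PTh`, then it contains every finite graph without `K5` and `K33` minor.
-/

set_option autoImplicit false

namespace Pool.WG

/-! ### Minors -/

/-- `H` is a minor of `G` -/
def HM {W V : Type} (H : SimpleGraph W) (G : SimpleGraph V) : Prop :=
  ∃ f : W → Set V, (∀ w, (G.induce (f w)).Connected) ∧ (∀ v w, v ≠ w → Disjoint (f v) (f w)) ∧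
    ∀ v w, H.Adj v w → ∃ x ∈ f v, ∃ y ∈ f w, G.Adj x y

/-- no `K5` minor and no `K33` minor -/
def Fr {V : Type} (G : SimpleGraph V) : Prop :=
  ¬ HM (⊤ : SimpleGraph (Fin 5)) G ∧ ¬ HM (completeBipartiteGraph (Fin 3) (Fin 3)) G

/-- contraction of `xy` to `x`, on the same vertex type (`y` becomes isolated) -/
def ctr {V : Type} (G : SimpleGraph V) (x y : V) : SimpleGraph V where
  Adj a b := a ≠ b ∧ a ≠ y ∧ b ≠ y ∧ (G.Adj a b ∨ (a = x ∧ G.Adj y b) ∨ (b = x ∧ G.Adj y a))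
  symm := ⟨fun a b h => by
    refine ⟨h.1.symm, h.2.2.1, h.2.1, ?_⟩
    rcases h.2.2.2 with h | h | h
    · exact Or.inl h.symm
    · exact Or.inr (Or.inr h)
    · exact Or.inr (Or.inl h)⟩
  loopless := ⟨fun a h => h.1 rfl⟩

/-- removing at most two vertices leaves a connected graph -/
def C3 {V : Type} (G : SimpleGraph V) : Prop :=
  ∀ S : Set V, S.ncard ≤ 2 → (G.induce Sᶜ).Preconnected

/-! ### Closure properties of a class of graphs -/

/-- relabelling, adding and removing isolated vertices -/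
def PMap (P : ∀ V : Type, SimpleGraph V → Prop) : Prop :=
  ∀ (V W : Type) [Finite V] [Finite W] (f : V ↪ W) (G : SimpleGraph V), P W (G.map f) ↔ P V G

/-- deleting edges -/
def PMono (P : ∀ V : Type, SimpleGraph V → Prop) : Prop :=
  ∀ (V : Type) [Finite V] (G' G : SimpleGraph V), G' ≤ G → P V G → P V G'

/-- the complete graph on four vertices -/
def PK4 (P : ∀ V : Type, SimpleGraph V → Prop) : Prop := P (Fin 4) ⊤

/-- gluing at one vertex (or none) -/
def PGl1 (P : ∀ V : Type, SimpleGraph V → Prop) : Prop :=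
  ∀ (V : Type) [Finite V] (G₁ G₂ : SimpleGraph V) (u : V),
    (∀ w a b, G₁.Adj w a → G₂.Adj w b → w = u) → P V G₁ → P V G₂ → P V (G₁ ⊔ G₂)

/-- gluing at an edge -/
def PGl2 (P : ∀ V : Type, SimpleGraph V → Prop) : Prop :=
  ∀ (V : Type) [Finite V] (G₁ G₂ : SimpleGraph V) (u v : V), G₁.Adj u v → G₂.Adj u v →
    (∀ w a b, G₁.Adj w a → G₂.Adj w b → w = u ∨ w = v) → P V G₁ → P V G₂ → P V (G₁ ⊔ G₂)

/-- the main step: from a drawing of `G / xy`, where `G` is 3-connected and `G - x - y` is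
2-connected, one gets the link cycle `c` in `G - x - y`; all neighbours of `x` and `y` are on it, and
if the neighbours of `x` are in an arc and the neighbours of `y` in the complementary arc, the vertex
can be split. -/
def PLnk (P : ∀ V : Type, SimpleGraph V → Prop) : Prop :=
  ∀ (V : Type) [Finite V] (G : SimpleGraph V) (x y : V), G.Adj x y → 5 ≤ Nat.card V → C3 G →
    (∀ z, (G.induce ({x, y, z} : Set V)ᶜ).Preconnected) → P V (ctr G x y) →
    ∃ (m : ℕ) (c : ℕ → V), 0 < m ∧ (∀ j, c (j + m) = c j) ∧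
      (∀ i < m, ∀ j < m, c i = c j → i = j) ∧ (∀ j, G.Adj (c j) (c (j + 1))) ∧
      (∀ j, c j ≠ x ∧ c j ≠ y) ∧
      (∀ w, G.Adj x w → w ≠ y → ∃ j, w = c j) ∧ (∀ w, G.Adj y w → w ≠ x → ∃ j, w = c j) ∧
      (∀ s k, k ≤ m → (∀ w, G.Adj x w → w ≠ y → ∃ j, j ≤ k ∧ w = c (s + j)) →
        (∀ w, G.Adj y w → w ≠ x → ∃ j, k ≤ j ∧ j ≤ m ∧ w = c (s + j)) → P V G)

/-- all closure properties -/
structure PTh (P : ∀ V : Type, SimpleGraph V → Prop) : Prop where
  map : PMap P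
  mono : PMono P
  k4 : PK4 P
  gl1 : PGl1 P
  gl2 : PGl2 P
  lnk : PLnk P

/-- the theorem of the graph side -/
def WagnerAbs : Prop :=
  ∀ P : ∀ V : Type, SimpleGraph V → Prop, PTh P → ∀ (V : Type) [Finite V] (G : SimpleGraph V),
    Fr G → P V G

/-! ### Modules of the graph side -/

/-- `C` is a union of components of `G - T`, and something else remains -/
def Frag {V : Type} (G : SimpleGraph V) (C T : Set V) : Prop :=
  C.Nonempty ∧ Disjoint C T ∧ ((C ∪ T)ᶜ).Nonempty ∧ ∀ a ∈ C, ∀ b, G.Adj a b → b ∈ C ∪ T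

/-- union of connected sets along a connected set -/
def UniSt : Prop :=
  ∀ (V' V : Type) (G' : SimpleGraph V') (G : SimpleGraph V) (g : V' → Set V) (s : Set V'),
    (G'.induce s).Connected → (∀ a ∈ s, (G.induce (g a)).Connected) →
    (∀ a ∈ s, ∀ b ∈ s, G'.Adj a b → ∃ x ∈ g a, ∃ y ∈ g b, G.Adj x y) →
    (G.induce (⋃ a ∈ s, g a)).Connected

/-- transitivity of minors, for a graph without isolated vertices -/
def TrmSt : Prop :=
  ∀ (W V' V : Type) (H : SimpleGraph W) (G' : SimpleGraph V') (G : SimpleGraph V)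
    (g : V' → Set V), (∀ w, ∃ w', H.Adj w w') →
    (∀ a b, G'.Adj a b → (G.induce (g a)).Connected) →
    (∀ a b a' b', G'.Adj a a' → G'.Adj b b' → a ≠ b → Disjoint (g a) (g b)) →
    (∀ a b, G'.Adj a b → ∃ x ∈ g a, ∃ y ∈ g b, G.Adj x y) →
    HM H G' → HM H G

/-- the same for `Fr` -/
def TfrSt : Prop :=
  ∀ (V' V : Type) (G' : SimpleGraph V') (G : SimpleGraph V) (g : V' → Set V),
    (∀ a b, G'.Adj a b → (G.induce (g a)).Connected) →
    (∀ a b a' b', G'.Adj a a' → G'.Adj b b' → a ≠ b → Disjoint (g a) (g b)) →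
    (∀ a b, G'.Adj a b → ∃ x ∈ g a, ∃ y ∈ g b, G.Adj x y) →
    Fr G → Fr G'

/-- contraction -/
def CtrSt : Prop :=
  ∀ (V : Type) (G : SimpleGraph V) (x y : V), G.Adj x y → Fr G → Fr (ctr G x y)

/-- adding the edge of a 2-separation -/
def PcSt : Prop :=
  ∀ (V : Type) (G : SimpleGraph V) (A B : Set V) (u v : V), u ≠ v → A ∪ B = Set.univ →
    A ∩ B = {u, v} → (∀ a b, G.Adj a b → (a ∈ A ∧ b ∈ A) ∨ (a ∈ B ∧ b ∈ B)) →
    (B \ A).Nonempty → (A \ B).Nonempty → (∀ T C : Set V, T.ncard ≤ 1 → ¬ Frag G C T) →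
    ∀ G' : SimpleGraph V, (∀ a b, G'.Adj a b → (G.Adj a b ∧ a ∈ A ∧ b ∈ A) ∨
      (a = u ∧ b = v) ∨ (a = v ∧ b = u)) → Fr G → Fr G'

/-- no fragment means connected -/
def FcSt : Prop :=
  ∀ (V : Type) (G : SimpleGraph V) (T : Set V), (∀ C, ¬ Frag G C T) → (G.induce Tᶜ).Preconnected

/-- the contractible edge lemma of Thomassen -/
def ThoSt : Prop :=
  ∀ (V : Type) [Finite V] (G : SimpleGraph V), 5 ≤ Nat.card V →
    (∀ T C : Set V, T.ncard ≤ 2 → ¬ Frag G C T) →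
    ∃ x y, G.Adj x y ∧ ∀ z C, ¬ Frag G C {x, y, z}

/-- three positions -/
def TriSt : Prop :=
  ∀ (m : ℕ) (A B : ℕ → Prop), 0 < m → (∀ j, A (j + m) ↔ A j) → (∀ j, B (j + m) ↔ B j) →
    (∃ i j k, i < j ∧ j < k ∧ k < i + m ∧ (A i ∧ B i) ∧ (A j ∧ B j) ∧ (A k ∧ B k)) ∨
    (∃ i j k l, i < j ∧ j < k ∧ k < l ∧ l < i + m ∧ A i ∧ B j ∧ A k ∧ B l) ∨
    (∃ s k, k ≤ m ∧ (∀ j, A j → ∃ i, i ≤ k ∧ (j ≡ s + i [MOD m])) ∧
      (∀ j, B j → ∃ i, k ≤ i ∧ i ≤ m ∧ (j ≡ s + i [MOD m])))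

/-- an arc of a cycle is connected -/
def ArcSt : Prop :=
  ∀ (V : Type) (G : SimpleGraph V) (c : ℕ → V), (∀ j, G.Adj (c j) (c (j + 1))) →
    ∀ i j, i < j → (G.induce {v | ∃ t, i ≤ t ∧ t < j ∧ v = c t}).Connected

/-- three common neighbours on the link cycle give `K5` -/
def K5mSt : Prop :=
  ∀ (V : Type) (G : SimpleGraph V) (x y : V) (m : ℕ) (c : ℕ → V), G.Adj x y →
    (∀ j, c (j + m) = c j) → (∀ i < m, ∀ j < m, c i = c j → i = j) →
    (∀ j, G.Adj (c j) (c (j + 1))) → (∀ j, c j ≠ x ∧ c j ≠ y) →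
    ∀ i j k, i < j → j < k → k < i + m → (G.Adj x (c i) ∧ G.Adj y (c i)) →
      (G.Adj x (c j) ∧ G.Adj y (c j)) → (G.Adj x (c k) ∧ G.Adj y (c k)) →
      HM (⊤ : SimpleGraph (Fin 5)) G

/-- alternating neighbours on the link cycle give `K33` -/
def K33mSt : Prop :=
  ∀ (V : Type) (G : SimpleGraph V) (x y : V) (m : ℕ) (c : ℕ → V), G.Adj x y →
    (∀ j, c (j + m) = c j) → (∀ i < m, ∀ j < m, c i = c j → i = j) →
    (∀ j, G.Adj (c j) (c (j + 1))) → (∀ j, c j ≠ x ∧ c j ≠ y) →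
    ∀ i j k l, i < j → j < k → k < l → l < i + m → G.Adj x (c i) → G.Adj y (c j) →
      G.Adj x (c k) → G.Adj y (c l) →
      HM (completeBipartiteGraph (Fin 3) (Fin 3)) G

/-- induction step: an isolated vertex -/
def IsoSt : Prop :=
  ∀ P : ∀ V : Type, SimpleGraph V → Prop, PTh P → ∀ (V : Type) [Finite V],
    (∀ (W : Type) [Finite W], Nat.card W < Nat.card V → ∀ G : SimpleGraph W, Fr G → P W G) →
    ∀ (G : SimpleGraph V) (y : V), (∀ a, ¬ G.Adj y a) → Fr G → P V G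

/-- induction step: a separation of order at most one -/
def Se1St : Prop :=
  ∀ P : ∀ V : Type, SimpleGraph V → Prop, PTh P → ∀ (V : Type) [Finite V],
    (∀ (G : SimpleGraph V) (y : V), (∀ a, ¬ G.Adj y a) → Fr G → P V G) →
    ∀ (G : SimpleGraph V) (C T : Set V), T.ncard ≤ 1 → Frag G C T → Fr G → P V G

/-- induction step: a separation of order two -/
def Se2St : Prop :=
  ∀ P : ∀ V : Type, SimpleGraph V → Prop, PTh P → ∀ (V : Type) [Finite V],
    (∀ (G : SimpleGraph V) (y : V), (∀ a, ¬ G.Adj y a) → Fr G → P V G) →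
    ∀ (G : SimpleGraph V) (C T : Set V), T.ncard = 2 → Frag G C T →
      (∀ T C : Set V, T.ncard ≤ 1 → ¬ Frag G C T) → Fr G → P V G

/-- induction step: 3-connected -/
def MnsSt : Prop :=
  ∀ P : ∀ V : Type, SimpleGraph V → Prop, PTh P → ∀ (V : Type) [Finite V],
    (∀ (G : SimpleGraph V) (y : V), (∀ a, ¬ G.Adj y a) → Fr G → P V G) →
    5 ≤ Nat.card V → ∀ (G : SimpleGraph V), (∀ T C : Set V, T.ncard ≤ 2 → ¬ Frag G C T) →
      Fr G → P V G

/-- small graphs -/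
def SmlSt : Prop :=
  ∀ P : ∀ V : Type, SimpleGraph V → Prop, PTh P → ∀ (V : Type) [Finite V] (G : SimpleGraph V),
    Nat.card V ≤ 4 → P V G

end Pool.WG
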