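import Pool.Agent.H42.WG.Abs

set_option autoImplicit false

namespace Pool.WG

theorem per_mod {A : ℕ → Prop} {m : ℕ} (hA : ∀ j, A (j + m) ↔ A j) {i j : ℕ}
    (h : i ≡ j [MOD m]) : A i ↔ A j := by
  have hp : Function.Periodic A m := fun j => propext (hA j)
  have e1 := hp.map_mod_nat i
  have e2 := hp.map_mod_nat j
  rw [← e1, ← e2, show i % m = j % m from h]

theorem rep_mod {m : ℕ} (hm : 0 < m) (s j : ℕ) : ∃ r < m, s + r ≡ j [MOD m] := by
  refine ⟨(j + m * s - s) % m, Nat.mod_lt _ hm, ?_⟩
  have h1 : s ≤ m * s := Nat.le_mul_of_pos_left s hm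
  have h2 : s + (j + m * s - s) = j + m * s := by omega
  have h3 : s + (j + m * s - s) % m ≡ s + (j + m * s - s) [MOD m] :=
    Nat.ModEq.add_left s (Nat.mod_modEq _ _)
  rw [h2] at h3
  refine h3.trans ?_
  show (j + m * s) % m = j % m
  exact Nat.add_mul_mod_self_left j m s

theorem add_m_mod {m : ℕ} (j : ℕ) : j + m ≡ j [MOD m] := Nat.add_mod_right j m

theorem tri : TriSt := by
  classical
  intro m A B hm hA hB
  by_cases hcase : ∃ b, B b ∧ ¬ A b
  · obtain ⟨b, hBb, hAb⟩ := hcase
    by_cases hA0 : ∀ j, ¬ A j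
    · right; right
      refine ⟨b, 0, Nat.zero_le _, fun j hj => absurd hj (hA0 j), fun j _ => ?_⟩
      obtain ⟨r, hr, hrj⟩ := rep_mod hm b j
      exact ⟨r, Nat.zero_le _, hr.le, hrj.symm⟩
    · push Not at hA0
      obtain ⟨a, ha⟩ := hA0
      obtain ⟨r0, hr0, hr0a⟩ := rep_mod hm b a
      have hAr0 : A (b + r0) := (per_mod hA hr0a).2 ha
      have hex : ∃ r, A (b + r) := ⟨r0, hAr0⟩
      have hp1 : A (b + Nat.find hex) := Nat.find_spec hex
      have hp2 : ∀ r, A (b + r) → Nat.find hex ≤ r := fun r hr => Nat.find_min' hex hr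
      generalize Nat.find hex = p at hp1 hp2
      have hq1 : A (b + Nat.findGreatest (fun j => A (b + j)) (m - 1)) :=
        Nat.findGreatest_spec (P := fun j => A (b + j)) (m := r0) (n := m - 1) (by omega) hAr0
      have hq2 : ∀ r < m, A (b + r) → r ≤ Nat.findGreatest (fun j => A (b + j)) (m - 1) :=
        fun r hr h => Nat.le_findGreatest (by omega) h
      have hq3 : Nat.findGreatest (fun j => A (b + j)) (m - 1) ≤ m - 1 := Nat.findGreatest_le _
      generalize Nat.findGreatest (fun j => A (b + j)) (m - 1) = q at hq1 hq2 hq3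
      have hp0 : 0 < p := by
        rcases Nat.eq_zero_or_pos p with h | h
        · subst h; exact absurd hp1 hAb
        · exact h
      have hpq : p ≤ q := hp2 q hq1
      by_cases halt : ∃ j, p < j ∧ j < q ∧ B (b + j)
      · obtain ⟨j, hj1, hj2, hj3⟩ := halt
        right; left
        refine ⟨b + p, b + j, b + q, b + m, by omega, by omega, by omega, by omega, hp1, hj3, hq1,
          (hB b).2 hBb⟩
      · push Not at halt
        right; right
        refine ⟨b + p, q - p, by omega, fun j hj => ?_, fun j hj => ?_⟩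
        · obtain ⟨r, hr, hrj⟩ := rep_mod hm b j
          have h1 : A (b + r) := (per_mod hA hrj).2 hj
          have h2 := hp2 r h1
          have h3 := hq2 r hr h1
          refine ⟨r - p, by omega, ?_⟩
          rw [show b + p + (r - p) = b + r by omega]
          exact hrj.symm
        · obtain ⟨r, hr, hrj⟩ := rep_mod hm b j
          have h1 : B (b + r) := (per_mod hB hrj).2 hj
          by_cases h2 : r ≤ p
          · refine ⟨r + m - p, by omega, by omega, ?_⟩
            rw [show b + p + (r + m - p) = b + r + m by omega]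
            exact (hrj.symm).trans (add_m_mod _).symm
          · have h3 : q ≤ r := by
              by_contra h
              exact halt r (by omega) (by omega) h1
            refine ⟨r - p, by omega, by omega, ?_⟩
            rw [show b + p + (r - p) = b + r by omega]
            exact hrj.symm
  · push Not at hcase
    by_cases hB0 : ∀ j, ¬ B j
    · right; right
      refine ⟨0, m, le_rfl, fun j _ => ?_, fun j hj => absurd hj (hB0 j)⟩
      obtain ⟨r, hr, hrj⟩ := rep_mod hm 0 j
      exact ⟨r, hr.le, hrj.symm⟩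
    push Not at hB0
    obtain ⟨b, hb⟩ := hB0
    by_cases hB1 : ∀ b', B b' → b' ≡ b [MOD m]
    · right; right
      refine ⟨b, m, le_rfl, fun j _ => ?_, fun j hj => ?_⟩
      · obtain ⟨r, hr, hrj⟩ := rep_mod hm b j
        exact ⟨r, hr.le, hrj.symm⟩
      · exact ⟨m, le_rfl, le_rfl, (hB1 j hj).trans (add_m_mod b).symm⟩
    push Not at hB1
    obtain ⟨b', hb', hbb'⟩ := hB1
    obtain ⟨j0, hj0, hj0b⟩ := rep_mod hm b b'
    have hj0p : 0 < j0 := by
      rcases Nat.eq_zero_or_pos j0 with h | h
      · subst h; exact absurd hj0b.symm hbb'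
      · exact h
    have hBj0 : B (b + j0) := (per_mod hB hj0b).2 hb'
    by_cases h1 : ∀ r < m, A (b + r) → r ≤ j0
    · by_cases h3 : ∃ r, 0 < r ∧ r < j0 ∧ B (b + r)
      · obtain ⟨r, hr1, hr2, hr3⟩ := h3
        left
        exact ⟨b, b + r, b + j0, by omega, by omega, by omega, ⟨hcase _ hb, hb⟩,
          ⟨hcase _ hr3, hr3⟩, ⟨hcase _ hBj0, hBj0⟩⟩
      · push Not at h3
        right; right
        refine ⟨b, j0, hj0.le, fun j hj => ?_, fun j hj => ?_⟩
        · obtain ⟨r, hr, hrj⟩ := rep_mod hm b j
          exact ⟨r, h1 r hr ((per_mod hA hrj).2 hj), hrj.symm⟩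
        · obtain ⟨r, hr, hrj⟩ := rep_mod hm b j
          have h4 : B (b + r) := (per_mod hB hrj).2 hj
          have h5 : r ≤ j0 := h1 r hr (hcase _ h4)
          rcases Nat.eq_zero_or_pos r with h | h
          · subst h
            exact ⟨m, hj0.le, le_rfl, hrj.symm.trans (add_m_mod b).symm⟩
          · have h6 : r = j0 := by
              by_contra hne
              exact h3 r h (by omega) h4
            exact ⟨r, by omega, hr.le, hrj.symm⟩
    push Not at h1
    obtain ⟨r1, hr1, hAr1, hr1j⟩ := h1
    by_cases h2 : ∀ r < m, A (b + r) → r = 0 ∨ j0 ≤ r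
    · by_cases h3 : ∃ r, j0 < r ∧ r < m ∧ B (b + r)
      · obtain ⟨r, hr1, hr2, hr3⟩ := h3
        left
        exact ⟨b, b + j0, b + r, by omega, by omega, by omega, ⟨hcase _ hb, hb⟩,
          ⟨hcase _ hBj0, hBj0⟩, ⟨hcase _ hr3, hr3⟩⟩
      · push Not at h3
        right; right
        refine ⟨b + j0, m - j0, by omega, fun j hj => ?_, fun j hj => ?_⟩
        · obtain ⟨r, hr, hrj⟩ := rep_mod hm b j
          rcases h2 r hr ((per_mod hA hrj).2 hj) with h | h
          · subst h
            refine ⟨m - j0, le_rfl, ?_⟩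
            rw [show b + j0 + (m - j0) = b + 0 + m by omega]
            exact hrj.symm.trans (add_m_mod _).symm
          · refine ⟨r - j0, by omega, ?_⟩
            rw [show b + j0 + (r - j0) = b + r by omega]
            exact hrj.symm
        · obtain ⟨r, hr, hrj⟩ := rep_mod hm b j
          have h4 : B (b + r) := (per_mod hB hrj).2 hj
          rcases h2 r hr (hcase _ h4) with h | h
          · subst h
            refine ⟨m - j0, le_rfl, by omega, ?_⟩
            rw [show b + j0 + (m - j0) = b + 0 + m by omega]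
            exact hrj.symm.trans (add_m_mod _).symm
          · have h6 : r = j0 := by
              by_contra hne
              exact h3 r (by omega) hr h4
            subst h6
            exact ⟨m, by omega, le_rfl, hrj.symm.trans (add_m_mod _).symm⟩
    push Not at h2
    obtain ⟨r2, hr2, hAr2, hr20, hr2j⟩ := h2
    right; left
    exact ⟨b + r2, b + j0, b + r1, b + m, by omega, by omega, by omega, by omega, hAr2, hBj0, hAr1,
      (hB b).2 hb⟩

end Pool.WG
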