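import Pool.Agent.H42.WG.Conn
import Pool.Agent.H42.WG.Tri

set_option autoImplicit false

namespace Pool.WG

/-- an arc -/
def arc {V : Type} (c : ℕ → V) (i j : ℕ) : Set V := {v | ∃ t, i ≤ t ∧ t < j ∧ v = c t}

theorem arc_conn : ArcSt := by
  intro V G c hc i j hij
  have h1 : ∀ t (ht : i ≤ t) (htj : t < j),
      (G.induce {v | ∃ t, i ≤ t ∧ t < j ∧ v = c t}).Reachable ⟨c i, i, le_rfl, hij, rfl⟩
        ⟨c t, t, ht, htj, rfl⟩ := by
    intro t ht
    induction t, ht using Nat.le_induction with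
    | base => intro _; exact SimpleGraph.Reachable.refl _
    | succ t ht ih =>
      intro htj
      refine (ih (by omega)).trans (SimpleGraph.Adj.reachable ?_)
      exact hc t
  have : Nonempty ↑{v | ∃ t, i ≤ t ∧ t < j ∧ v = c t} := ⟨⟨c i, i, le_rfl, hij, rfl⟩⟩
  refine SimpleGraph.Connected.mk ?_
  rintro ⟨_, t, ht1, ht2, rfl⟩ ⟨_, t', ht1', ht2', rfl⟩
  exact (h1 t ht1 ht2).symm.trans (h1 t' ht1' ht2')

theorem cyc_ne {V : Type} {c : ℕ → V} {m : ℕ} (hm : ∀ j, c (j + m) = c j)
    (hi : ∀ i < m, ∀ j < m, c i = c j → i = j) {t t' : ℕ} (h1 : t < t') (h2 : t' < t + m) :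
    c t ≠ c t' := by
  intro h
  have hp : Function.Periodic c m := hm
  have hm0 : 0 < m := by omega
  rw [← hp.map_mod_nat t, ← hp.map_mod_nat t'] at h
  have h3 := hi _ (Nat.mod_lt _ hm0) _ (Nat.mod_lt _ hm0) h
  have h4 : m ∣ t' - t := (Nat.modEq_iff_dvd' h1.le).1 h3
  have h5 := Nat.le_of_dvd (by omega) h4
  omega

theorem arc_disj {V : Type} {c : ℕ → V} {m : ℕ} (hm : ∀ j, c (j + m) = c j)
    (hi : ∀ i < m, ∀ j < m, c i = c j → i = j) {i j i' j' : ℕ} (h1 : j ≤ i')
    (h2 : j' ≤ i + m) : Disjoint (arc c i j) (arc c i' j') := by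
  rw [Set.disjoint_left]
  rintro _ ⟨t, ht1, ht2, rfl⟩ ⟨t', ht1', ht2', h⟩
  exact cyc_ne hm hi (by omega) (by omega) h

theorem arc_out {V : Type} {c : ℕ → V} {x : V} (hx : ∀ j, c j ≠ x) (i j : ℕ) :
    Disjoint {x} (arc c i j) := by
  rw [Set.disjoint_singleton_left]
  rintro ⟨t, _, _, h⟩
  exact hx t h.symm

theorem pair_of_lt {n : ℕ} {Q : Fin n → Fin n → Prop} (hs : ∀ a b, Q a b → Q b a)
    (h : ∀ a b, a < b → Q a b) : ∀ a b, a ≠ b → Q a b := by
  intro a b hab
  rcases lt_or_gt_of_ne hab with h1 | h1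
  · exact h a b h1
  · exact hs b a (h b a h1)

theorem arc_first {V : Type} {c : ℕ → V} {i j : ℕ} (h : i < j) : c i ∈ arc c i j :=
  ⟨i, le_rfl, h, rfl⟩

theorem arc_last {V : Type} {c : ℕ → V} {i j : ℕ} (h : i < j) : c (j - 1) ∈ arc c i j :=
  ⟨j - 1, by omega, by omega, rfl⟩

theorem arc_step {V : Type} {G : SimpleGraph V} {c : ℕ → V} (hc : ∀ j, G.Adj (c j) (c (j + 1)))
    {i j k : ℕ} (h1 : i < j) (h2 : j < k) : ∃ a ∈ arc c i j, ∃ b ∈ arc c j k, G.Adj a b := by
  refine ⟨c (j - 1), arc_last h1, c j, arc_first h2, ?_⟩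
  have := hc (j - 1)
  rwa [show j - 1 + 1 = j by omega] at this

theorem arc_wrap {V : Type} {G : SimpleGraph V} {c : ℕ → V} (hc : ∀ j, G.Adj (c j) (c (j + 1)))
    {m : ℕ} (hm : ∀ j, c (j + m) = c j)
    {i j l : ℕ} (h1 : l < i + m) (h2 : i < j) : ∃ a ∈ arc c l (i + m), ∃ b ∈ arc c i j,
      G.Adj a b := by
  refine ⟨c (i + m - 1), arc_last h1, c i, arc_first h2, ?_⟩
  have := hc (i + m - 1)
  rwa [show i + m - 1 + 1 = i + m by omega, hm] at this

theorem k5m : K5mSt := by
  intro V G x y m c hxy hm hi hc hx i j k hij hjk hki h1 h2 h3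
  have hxx : ∀ j, c j ≠ x := fun j => (hx j).1
  have hyy : ∀ j, c j ≠ y := fun j => (hx j).2
  refine ⟨![{x}, {y}, arc c i j, arc c j k, arc c k (i + m)], ?_, ?_, ?_⟩
  · intro w
    fin_cases w
    · exact conn_single G x
    · exact conn_single G y
    · exact arc_conn V G c hc i j hij
    · exact arc_conn V G c hc j k hjk
    · exact arc_conn V G c hc k (i + m) hki
  · refine pair_of_lt (fun a b h => h.symm) ?_
    intro a b hab
    fin_cases a <;> fin_cases b <;> first | (exact absurd hab (by decide)) | skip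
    · exact Set.disjoint_singleton.2 hxy.ne
    · exact arc_out hxx _ _
    · exact arc_out hxx _ _
    · exact arc_out hxx _ _
    · exact arc_out hyy _ _
    · exact arc_out hyy _ _
    · exact arc_out hyy _ _
    · exact arc_disj hm hi (by omega) (by omega)
    · exact arc_disj hm hi (by omega) (by omega)
    · exact arc_disj hm hi (by omega) (by omega)
  · intro a b hab
    have hab' : a ≠ b := hab.ne
    revert a b hab'
    suffices H : ∀ a b : Fin 5, a ≠ b → ∃ p ∈ (![{x}, {y}, arc c i j, arc c j k, arc c k (i + m)] : Fin 5 → Set V) a,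
        ∃ q ∈ (![{x}, {y}, arc c i j, arc c j k, arc c k (i + m)] : Fin 5 → Set V) b, G.Adj p q by
      intro a b _ hab; exact H a b hab
    refine pair_of_lt (fun a b h => ?_) ?_
    · obtain ⟨p, hp, q, hq, hpq⟩ := h
      exact ⟨q, hq, p, hp, hpq.symm⟩
    intro a b hab
    fin_cases a <;> fin_cases b <;> first | (exact absurd hab (by decide)) | skip
    · exact ⟨x, rfl, y, rfl, hxy⟩
    · exact ⟨x, rfl, c i, arc_first hij, h1.1⟩
    · exact ⟨x, rfl, c j, arc_first hjk, h2.1⟩
    · exact ⟨x, rfl, c k, arc_first hki, h3.1⟩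
    · exact ⟨y, rfl, c i, arc_first hij, h1.2⟩
    · exact ⟨y, rfl, c j, arc_first hjk, h2.2⟩
    · exact ⟨y, rfl, c k, arc_first hki, h3.2⟩
    · exact arc_step hc hij hjk
    · obtain ⟨p, hp, q, hq, hpq⟩ := arc_wrap hc hm hki hij
      exact ⟨q, hq, p, hp, hpq.symm⟩
    · exact arc_step hc hjk hki

theorem k33m : K33mSt := by
  intro V G x y m c hxy hm hi hc hx i j k l hij hjk hkl hli h1 h2 h3 h4
  have hxx : ∀ j, c j ≠ x := fun j => (hx j).1
  have hyy : ∀ j, c j ≠ y := fun j => (hx j).2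
  have hdis : ∀ (a b : Fin 3), Disjoint ((![{x}, arc c j k, arc c l (i + m)] : Fin 3 → Set V) a)
      ((![{y}, arc c i j, arc c k l] : Fin 3 → Set V) b) := by
    intro a b
    fin_cases a <;> fin_cases b
    · exact Set.disjoint_singleton.2 hxy.ne
    · exact arc_out hxx _ _
    · exact arc_out hxx _ _
    · exact (arc_out hyy _ _).symm
    · exact (arc_disj hm hi (by omega) (by omega)).symm
    · exact arc_disj hm hi (by omega) (by omega)
    · exact (arc_out hyy _ _).symm
    · exact (arc_disj hm hi (by omega) (by omega)).symm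
    · exact (arc_disj hm hi (by omega) (by omega)).symm
  have hd1 : ∀ (a b : Fin 3), a ≠ b → Disjoint ((![{x}, arc c j k, arc c l (i + m)] : Fin 3 → Set V) a)
      ((![{x}, arc c j k, arc c l (i + m)] : Fin 3 → Set V) b) := by
    refine pair_of_lt (fun a b h => h.symm) ?_
    intro a b hab
    fin_cases a <;> fin_cases b <;> first | (exact absurd hab (by decide)) | skip
    · exact arc_out hxx _ _
    · exact arc_out hxx _ _
    · exact arc_disj hm hi (by omega) (by omega)
  have hd2 : ∀ (a b : Fin 3), a ≠ b → Disjoint ((![{y}, arc c i j, arc c k l] : Fin 3 → Set V) a)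
      ((![{y}, arc c i j, arc c k l] : Fin 3 → Set V) b) := by
    refine pair_of_lt (fun a b h => h.symm) ?_
    intro a b hab
    fin_cases a <;> fin_cases b <;> first | (exact absurd hab (by decide)) | skip
    · exact arc_out hyy _ _
    · exact arc_out hyy _ _
    · exact arc_disj hm hi (by omega) (by omega)
  have hadj : ∀ (a b : Fin 3), ∃ p ∈ (![{x}, arc c j k, arc c l (i + m)] : Fin 3 → Set V) a,
      ∃ q ∈ (![{y}, arc c i j, arc c k l] : Fin 3 → Set V) b, G.Adj p q := by
    intro a b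
    fin_cases a <;> fin_cases b
    · exact ⟨x, rfl, y, rfl, hxy⟩
    · exact ⟨x, rfl, c i, arc_first hij, h1⟩
    · exact ⟨x, rfl, c k, arc_first hkl, h3⟩
    · exact ⟨c j, arc_first hjk, y, rfl, h2.symm⟩
    · obtain ⟨p, hp, q, hq, hpq⟩ := arc_step hc hij hjk
      exact ⟨q, hq, p, hp, hpq.symm⟩
    · exact arc_step hc hjk hkl
    · exact ⟨c l, arc_first hli, y, rfl, h4.symm⟩
    · exact arc_wrap hc hm hli hij
    · obtain ⟨p, hp, q, hq, hpq⟩ := arc_step hc hkl hli
      exact ⟨q, hq, p, hp, hpq.symm⟩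
  refine ⟨Sum.elim (![{x}, arc c j k, arc c l (i + m)]) (![{y}, arc c i j, arc c k l]), ?_, ?_, ?_⟩
  · rintro (w | w)
    · fin_cases w
      · exact conn_single G x
      · exact arc_conn V G c hc j k hjk
      · exact arc_conn V G c hc l (i + m) hli
    · fin_cases w
      · exact conn_single G y
      · exact arc_conn V G c hc i j hij
      · exact arc_conn V G c hc k l hkl
  · rintro (a | a) (b | b) hab
    · exact hd1 a b (fun h => hab (by rw [h]))
    · exact hdis a b
    · exact (hdis b a).symm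
    · exact hd2 a b (fun h => hab (by rw [h]))
  · rintro (a | a) (b | b) hab
    · simp [completeBipartiteGraph] at hab
    · exact hadj a b
    · obtain ⟨p, hp, q, hq, hpq⟩ := hadj b a
      exact ⟨q, hq, p, hp, hpq.symm⟩
    · simp [completeBipartiteGraph] at hab

end Pool.WG
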