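import Pool.Agent.H42.WG.Abs

set_option autoImplicit false

namespace Pool.WG

theorem uni : UniSt := by
  intro V' V G' G g s hs hg he
  have hsub : ∀ a ∈ s, g a ⊆ ⋃ a ∈ s, g a := fun a ha => Set.subset_biUnion_of_mem ha
  have h1 : ∀ a (ha : a ∈ s), ∀ x (hx : x ∈ g a) x' (hx' : x' ∈ g a),
      (G.induce (⋃ a ∈ s, g a)).Reachable ⟨x, hsub a ha hx⟩ ⟨x', hsub a ha hx'⟩ := by
    intro a ha x hx x' hx'
    exact ((hg a ha).preconnected ⟨x, hx⟩ ⟨x', hx'⟩).map
      (SimpleGraph.induceHomOfLE G (hsub a ha)).toHom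
  have h2 : ∀ a b : s, (G'.induce s).Reachable a b → ∀ x (hx : x ∈ g a.1) y (hy : y ∈ g b.1),
      (G.induce (⋃ a ∈ s, g a)).Reachable ⟨x, hsub a.1 a.2 hx⟩ ⟨y, hsub b.1 b.2 hy⟩ := by
    intro a b hab
    obtain ⟨p⟩ := hab
    induction p with
    | nil => intro x hx y hy; exact h1 _ (Subtype.coe_prop _) x hx y hy
    | @cons a c b h p ih =>
      intro x hx y hy
      obtain ⟨x', hx', z, hz, hxz⟩ := he a.1 a.2 c.1 c.2 h
      have e1 := h1 a.1 a.2 x hx x' hx'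
      have e2 : (G.induce (⋃ a ∈ s, g a)).Adj ⟨x', hsub a.1 a.2 hx'⟩ ⟨z, hsub c.1 c.2 hz⟩ := hxz
      exact (e1.trans e2.reachable).trans (ih z hz y hy)
  obtain ⟨a0⟩ := hs.nonempty
  obtain ⟨x0⟩ := (hg a0.1 a0.2).nonempty
  have : Nonempty ↑(⋃ a ∈ s, g a) := ⟨⟨x0.1, hsub a0.1 a0.2 x0.2⟩⟩
  refine SimpleGraph.Connected.mk ?_
  rintro ⟨x, hx⟩ ⟨y, hy⟩
  obtain ⟨a, ha, hxa⟩ := Set.mem_iUnion₂.1 hx
  obtain ⟨b, hb, hyb⟩ := Set.mem_iUnion₂.1 hy
  exact h2 ⟨a, ha⟩ ⟨b, hb⟩ (hs.preconnected _ _) x hxa y hyb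

/-- a vertex of a connected induced subgraph is alone or has a neighbour in it -/
theorem conn_nb {V : Type} {G : SimpleGraph V} {s : Set V} (hs : (G.induce s).Connected) {a : V}
    (ha : a ∈ s) : s = {a} ∨ ∃ b ∈ s, G.Adj a b := by
  by_cases h : ∃ b ∈ s, b ≠ a
  · obtain ⟨b, hb, hba⟩ := h
    right
    obtain ⟨p⟩ := hs.preconnected ⟨a, ha⟩ ⟨b, hb⟩
    cases p with
    | nil => exact absurd rfl hba
    | @cons _ c _ h p => exact ⟨c.1, c.2, h⟩
  · left
    push Not at h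
    ext b
    constructor
    · intro hb; exact h b hb
    · intro hb; rw [Set.mem_singleton_iff] at hb; rw [hb]; exact ha

theorem trm : TrmSt := by
  intro W V' V H G' G g hH hc hd he ⟨f, f1, f2, f3⟩
  have hni : ∀ w, ∀ a ∈ f w, ∃ b, G'.Adj a b := by
    intro w a ha
    rcases conn_nb (f1 w) ha with h | ⟨b, hb, hab⟩
    · obtain ⟨w', hw'⟩ := hH w
      obtain ⟨x, hx, y, hy, hxy⟩ := f3 w w' hw'
      rw [h, Set.mem_singleton_iff] at hx
      exact ⟨y, hx ▸ hxy⟩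
    · exact ⟨b, hab⟩
  refine ⟨fun w => ⋃ a ∈ f w, g a, ?_, ?_, ?_⟩
  · intro w
    refine uni V' V G' G g (f w) (f1 w) ?_ ?_
    · intro a ha
      obtain ⟨b, hb⟩ := hni w a ha
      exact hc a b hb
    · intro a _ b _ hab
      exact he a b hab
  · intro v w hvw
    rw [Set.disjoint_iff_forall_ne]
    intro x hx y hy hxy
    obtain ⟨a, ha, hxa⟩ := Set.mem_iUnion₂.1 hx
    obtain ⟨b, hb, hyb⟩ := Set.mem_iUnion₂.1 hy
    obtain ⟨a', ha'⟩ := hni v a ha
    obtain ⟨b', hb'⟩ := hni w b hb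
    have hab : a ≠ b := by
      rintro rfl
      exact Set.disjoint_left.1 (f2 v w hvw) ha hb
    exact Set.disjoint_left.1 (hd a b a' b' ha' hb' hab) hxa (hxy ▸ hyb)
  · intro v w hvw
    obtain ⟨a, ha, b, hb, hab⟩ := f3 v w hvw
    obtain ⟨x, hx, y, hy, hxy⟩ := he a b hab
    exact ⟨x, Set.mem_biUnion ha hx, y, Set.mem_biUnion hb hy, hxy⟩

theorem top5_nb : ∀ w : Fin 5, ∃ w', (⊤ : SimpleGraph (Fin 5)).Adj w w' := by
  intro w
  exact ⟨w + 1, by rw [SimpleGraph.top_adj]; revert w; decide⟩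

theorem k33_nb : ∀ w : Fin 3 ⊕ Fin 3, ∃ w', (completeBipartiteGraph (Fin 3) (Fin 3)).Adj w w' := by
  rintro (w | w)
  · exact ⟨Sum.inr 0, by simp [completeBipartiteGraph]⟩
  · exact ⟨Sum.inl 0, by simp [completeBipartiteGraph]⟩

theorem tfr : TfrSt := by
  intro V' V G' G g hc hd he hF
  exact ⟨fun h => hF.1 (trm _ _ _ _ _ _ g top5_nb hc hd he h),
    fun h => hF.2 (trm _ _ _ _ _ _ g k33_nb hc hd he h)⟩

/-- singletons are connected -/
theorem conn_single {V : Type} (G : SimpleGraph V) (a : V) : (G.induce {a}).Connected := by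
  have : Nonempty ({a} : Set V) := ⟨⟨a, rfl⟩⟩
  refine SimpleGraph.Connected.mk ?_
  rintro ⟨x, hx⟩ ⟨y, hy⟩
  have : (⟨x, hx⟩ : ({a} : Set V)) = ⟨y, hy⟩ := by
    rw [Subtype.mk.injEq]; exact hx.trans hy.symm
  rw [this]

/-- edges are connected -/
theorem conn_pair {V : Type} (G : SimpleGraph V) {a b : V} (h : G.Adj a b) :
    (G.induce ({a, b} : Set V)).Connected := by
  have h1 : ∀ z ∈ ({a, b} : Set V), z = a ∨ z = b := by
    intro z hz; simpa using hz
  have : Nonempty ({a, b} : Set V) := ⟨⟨a, by simp⟩⟩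
  refine SimpleGraph.Connected.mk ?_
  rintro ⟨x, hx⟩ ⟨y, hy⟩
  rcases h1 x hx with rfl | rfl <;> rcases h1 y hy with rfl | rfl
  · exact SimpleGraph.Reachable.refl _
  · exact SimpleGraph.Adj.reachable h
  · exact SimpleGraph.Adj.reachable h.symm
  · exact SimpleGraph.Reachable.refl _

theorem mono_fr {V : Type} {G' G : SimpleGraph V} (h : G' ≤ G) (hF : Fr G) : Fr G' := by
  refine tfr V V G' G (fun a => {a}) ?_ ?_ ?_ hF
  · intro a _ _; exact conn_single G a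
  · intro a b _ _ _ _ hab
    exact Set.disjoint_singleton.2 hab
  · intro a b hab
    exact ⟨a, rfl, b, rfl, h hab⟩

theorem ctrfr : CtrSt := by
  classical
  intro V G x y hxy hF
  refine tfr V V (ctr G x y) G (fun a => if a = x then {x, y} else {a}) ?_ ?_ ?_ hF
  · intro a b hab
    by_cases h : a = x
    · rw [if_pos h]; exact conn_pair G hxy
    · rw [if_neg h]; exact conn_single G a
  · intro a b a' b' ha hb hab
    have hay : a ≠ y := ha.2.1
    have hby : b ≠ y := hb.2.1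
    split_ifs with h1 h2 h2
    · exact absurd (h1.trans h2.symm) hab
    · subst h1
      rw [Set.disjoint_left]
      intro z hz hz'
      rw [Set.mem_singleton_iff] at hz'
      subst hz'
      rcases hz with hz | hz
      · exact h2 hz
      · exact hby hz
    · subst h2
      rw [Set.disjoint_left]
      intro z hz' hz
      rw [Set.mem_singleton_iff] at hz'
      subst hz'
      rcases hz with hz | hz
      · exact h1 hz
      · exact hay hz
    · exact Set.disjoint_singleton.2 hab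
  · intro a b hab
    obtain ⟨h1, h2, h3, h4⟩ := hab
    rcases h4 with h | ⟨h, h'⟩ | ⟨h, h'⟩
    · refine ⟨a, ?_, b, ?_, h⟩
      · split_ifs with e
        · subst e; simp
        · simp
      · split_ifs with e
        · subst e; simp
        · simp
    · subst h
      refine ⟨y, by simp, b, ?_, h'⟩
      rw [if_neg (Ne.symm h1)]; rfl
    · subst h
      refine ⟨a, ?_, y, by simp, h'.symm⟩
      rw [if_neg h1]; rfl

theorem fc : FcSt := by
  intro V G T h
  rintro ⟨a, ha⟩ ⟨b, hb⟩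
  by_contra hab
  refine h {c | ∃ hc : c ∈ Tᶜ, (G.induce Tᶜ).Reachable ⟨a, ha⟩ ⟨c, hc⟩} ⟨⟨a, ha, SimpleGraph.Reachable.refl _⟩, ?_, ⟨b, ?_⟩, ?_⟩
  · rw [Set.disjoint_left]
    rintro c ⟨hc, _⟩ hc'
    exact hc hc'
  · rintro (⟨hc, h'⟩ | h')
    · exact hab h'
    · exact hb h'
  · rintro c ⟨hc, hr⟩ d hcd
    by_cases hd : d ∈ T
    · exact Or.inr hd
    · left
      refine ⟨hd, hr.trans ?_⟩
      exact SimpleGraph.Adj.reachable (show (G.induce Tᶜ).Adj ⟨c, hc⟩ ⟨d, hd⟩ from hcd)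

end Pool.WG
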